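import Mathlib

/-!
# Zero-dimensional Hurewicz refinements of compact topologies

Let `T₂ ⊆ T₁` be topologies on `X` with `(X, T₂)` compact Hausdorff and `ind (X, T₁) = 0`.  If
`(X, T₁)` is a Hurewicz space, then `ind (X, T₂) ≤ 0`.

Outline of the proof.

* A Hurewicz subset `A` of a regular space satisfies the sandwich property: every `G_δ` set
  containing `A` contains a countable union of closed sets containing `A` (`HurSet.sandwich`).
* If `A` and its complement are both Hurewicz subsets of a compact Hausdorff space, then on no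
  nonempty set `C` are both dense (`resolvable`, a tree argument), and hence both are
  sigma-compact (`sigmaCompact_of_hurSet`).
* Assume that `(X, T₂)` is connected with at least two points.  A closing-off argument produces a
  countable family of continuous functions, i.e. a metrizable quotient `M` of `(X, T₂)`, and
  countably many `T₁`-clopen sets which are saturated, have `G_δ` images in `M` and refine the
  topology of `M`.  The corresponding subset of `M × 2^ω` is `G_δ` and Hurewicz, hence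
  sigma-compact, and the Baire category theorem in `M` produces a nontrivial clopen subset of
  `(X, T₂)`, a contradiction (`core`).
-/

open Set Filter Topology

namespace Pool.Agent.Results.MP_8652de_gt.Refinement

/-- `X` is a Hurewicz space: for every sequence `𝒰 0, 𝒰 1, ...` of open covers of `X` there are
finite subfamilies `𝒱 n ⊆ 𝒰 n` such that every point of `X` lies in the union of `𝒱 n` for all but
finitely many `n`. -/
def IsHurewiczSpace (X : Type*) [TopologicalSpace X] : Prop :=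
  ∀ 𝒰 : ℕ → Set (Set X), (∀ n, (∀ U ∈ 𝒰 n, IsOpen U) ∧ ⋃₀ (𝒰 n) = univ) →
    ∃ 𝒱 : ℕ → Set (Set X), (∀ n, 𝒱 n ⊆ 𝒰 n ∧ (𝒱 n).Finite) ∧
      ∀ x : X, ∀ᶠ n in atTop, x ∈ ⋃₀ (𝒱 n)

/-- Auxiliary: Hurewicz property of a subset, in terms of neighbourhood assignments. -/
def HurSet {Z : Type*} [TopologicalSpace Z] (A : Set Z) : Prop :=
  ∀ c : ℕ → Z → Set Z, (∀ n, ∀ x ∈ A, IsOpen (c n x) ∧ x ∈ c n x) →
    ∃ s : ℕ → Finset Z, (∀ n, ∀ y ∈ s n, y ∈ A) ∧
      ∀ x ∈ A, ∀ᶠ n in atTop, ∃ y ∈ s n, x ∈ c n y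

lemma hurSet_image {Y Z : Type*} [TopologicalSpace Y] [TopologicalSpace Z]
    (hY : IsHurewiczSpace Y) {A : Set Y} (hA : IsClosed A) {f : Y → Z} (hf : Continuous f) :
    HurSet (f '' A) := by
  classical
  intro c hc
  obtain ⟨𝒱, hV, hcov⟩ := hY (fun n => (fun y => f ⁻¹' (c n (f y))) '' A ∪ {Aᶜ}) (by
    intro n
    constructor
    · rintro U (⟨y, hy, rfl⟩ | rfl)
      · exact (hc n (f y) (mem_image_of_mem f hy)).1.preimage hf
      · exact hA.isOpen_compl
    · apply eq_univ_of_forall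
      intro x
      by_cases hx : x ∈ A
      · exact ⟨_, Or.inl ⟨x, hx, rfl⟩, (hc n (f x) (mem_image_of_mem f hx)).2⟩
      · exact ⟨Aᶜ, Or.inr rfl, hx⟩)
  have h1 : ∀ n, ∃ t : Finset Y, (∀ y ∈ t, y ∈ A) ∧
      ∀ V ∈ 𝒱 n, V ≠ Aᶜ → ∃ y ∈ t, f ⁻¹' (c n (f y)) = V := by
    intro n
    have hfin : (𝒱 n \ {Aᶜ}).Finite := (hV n).2.subset sdiff_subset
    have hsub : ((hfin.toFinset : Finset (Set Y)) : Set (Set Y)) ⊆
        (fun y => f ⁻¹' (c n (f y))) '' A := by
      intro V hV'
      rw [Set.Finite.coe_toFinset] at hV'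
      rcases (hV n).1 hV'.1 with h | h
      · exact h
      · exact absurd h hV'.2
    obtain ⟨t, htA, ht⟩ := Finset.subset_set_image_iff.mp hsub
    refine ⟨t, fun y hy => htA hy, fun V hVn hne => ?_⟩
    have : V ∈ t.image (fun y => f ⁻¹' (c n (f y))) := by
      rw [ht, Set.Finite.mem_toFinset]
      exact ⟨hVn, hne⟩
    obtain ⟨y, hy, hyV⟩ := Finset.mem_image.mp this
    exact ⟨y, hy, hyV⟩
  choose t ht htV using h1
  refine ⟨fun n => (t n).image f, ?_, ?_⟩
  · intro n y hy
    obtain ⟨x, hx, rfl⟩ := Finset.mem_image.mp hy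
    exact mem_image_of_mem f (ht n x hx)
  · rintro _ ⟨x, hx, rfl⟩
    filter_upwards [hcov x] with n hn
    obtain ⟨V, hVn, hxV⟩ := hn
    obtain ⟨y, hy, rfl⟩ := htV n V hVn (by rintro rfl; exact hxV hx)
    exact ⟨f y, Finset.mem_image_of_mem f hy, hxV⟩

lemma HurSet.lindelof {Z : Type*} [TopologicalSpace Z] {A : Set Z} (hA : HurSet A)
    (c : Z → Set Z) (hc : ∀ x ∈ A, IsOpen (c x) ∧ x ∈ c x) :
    ∃ t : Set Z, t.Countable ∧ t ⊆ A ∧ ∀ x ∈ A, ∃ y ∈ t, x ∈ c y := by
  obtain ⟨s, hs, hcov⟩ := hA (fun _ => c) (fun _ => hc)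
  refine ⟨⋃ n, (s n : Set Z), countable_iUnion fun n => (s n).countable_toSet, ?_, ?_⟩
  · exact iUnion_subset fun n y hy => hs n y hy
  · intro x hx
    obtain ⟨n, y, hy, hxy⟩ := (hcov x hx).exists
    exact ⟨y, mem_iUnion.mpr ⟨n, hy⟩, hxy⟩

lemma HurSet.sandwich {Z : Type*} [TopologicalSpace Z] [RegularSpace Z] {A : Set Z}
    (hA : HurSet A) {ι : Type*} [Countable ι] (O : ι → Set Z) (hO : ∀ i, IsOpen (O i))
    (hAO : ∀ i, A ⊆ O i) :
    ∃ F : ℕ → Set Z, (∀ m, IsClosed (F m)) ∧ (∀ x ∈ A, ∃ m, x ∈ F m) ∧ ∀ m i, F m ⊆ O i := by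
  classical
  rcases isEmpty_or_nonempty ι with hι | hι
  · refine ⟨fun _ => univ, fun _ => isClosed_univ, fun x _ => ⟨0, mem_univ x⟩, fun _ i => ?_⟩
    exact (hι.false i).elim
  obtain ⟨e, he⟩ := exists_surjective_nat ι
  have hch : ∀ n : ℕ, ∀ x : Z, ∃ V : Set Z, x ∈ A →
      (IsOpen V ∧ x ∈ V ∧ ∀ k ≤ n, closure V ⊆ O (e k)) := by
    intro n x
    by_cases hx : x ∈ A
    · have hopen : IsOpen (⋂ k ∈ Finset.range (n + 1), O (e k)) :=
        isOpen_biInter_finset fun k _ => hO (e k)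
      have hmem : x ∈ ⋂ k ∈ Finset.range (n + 1), O (e k) := by
        simp only [mem_iInter]
        intro k _
        exact hAO (e k) hx
      obtain ⟨K, hK, hKc, hKs⟩ := exists_mem_nhds_isClosed_subset (hopen.mem_nhds hmem)
      refine ⟨interior K, fun _ => ⟨isOpen_interior, mem_interior_iff_mem_nhds.mpr hK, ?_⟩⟩
      intro k hk y hy
      have hyK : y ∈ K := closure_minimal interior_subset hKc hy
      have := hKs hyK
      simp only [mem_iInter] at this
      exact this k (Finset.mem_range.mpr (by omega))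
    · exact ⟨∅, fun h => absurd h hx⟩
  choose V hV using hch
  obtain ⟨s, hs, hcov⟩ := hA V (fun n x hx => ⟨(hV n x hx).1, (hV n x hx).2.1⟩)
  refine ⟨fun m => ⋂ n ∈ Ici m, ⋃ y ∈ s n, closure (V n y), ?_, ?_, ?_⟩
  · intro m
    apply isClosed_biInter
    intro n _
    exact (s n).finite_toSet.isClosed_biUnion fun _ _ => isClosed_closure
  · intro x hx
    obtain ⟨m, hm⟩ := eventually_atTop.mp (hcov x hx)
    refine ⟨m, ?_⟩
    simp only [mem_iInter, mem_iUnion]
    intro n hn
    obtain ⟨y, hy, hxy⟩ := hm n hn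
    exact ⟨y, hy, subset_closure hxy⟩
  · intro m i x hx
    obtain ⟨k, rfl⟩ := he i
    simp only [mem_iInter, mem_iUnion] at hx
    obtain ⟨y, hy, hxy⟩ := hx (max m k) (mem_Ici.mpr (le_max_left m k))
    exact (hV (max m k) y (hs _ y hy)).2.2 k (le_max_right m k) hxy

/-- Points outside a Lindelöf set are separated from it by a countable family. -/
lemma HurSet.separate {K : Type*} [TopologicalSpace K] [T2Space K] {B : Set K} (hB : HurSet B)
    {x : K} (hx : x ∉ B) :
    ∃ G : ℕ → Set K, (∀ n, IsOpen (G n)) ∧ (∀ n, x ∈ G n) ∧ Antitone G ∧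
      ∀ b ∈ B, ∃ n, b ∉ closure (G n) := by
  classical
  have hch : ∀ b : K, ∃ V W : Set K, b ∈ B → IsOpen V ∧ IsOpen W ∧ x ∈ V ∧ b ∈ W ∧ Disjoint V W := by
    intro b
    by_cases hb : b ∈ B
    · have hne : x ≠ b := fun h => hx (h ▸ hb)
      obtain ⟨V, W, h1, h2, h3, h4, h5⟩ := t2_separation hne
      exact ⟨V, W, fun _ => ⟨h1, h2, h3, h4, h5⟩⟩
    · exact ⟨∅, ∅, fun h => absurd h hb⟩
  choose V W hVW using hch
  obtain ⟨t, htc, htB, htcov⟩ := hB.lindelof W
    (fun b hb => ⟨(hVW b hb).2.1, (hVW b hb).2.2.2.1⟩)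
  rcases B.eq_empty_or_nonempty with hBe | ⟨b0, hb0⟩
  · subst hBe
    exact ⟨fun _ => univ, fun _ => isOpen_univ, fun _ => mem_univ x, antitone_const,
      fun b hb => absurd hb (notMem_empty b)⟩
  obtain ⟨y0, hy0, _⟩ := htcov b0 hb0
  obtain ⟨g, hg⟩ := htc.exists_eq_range ⟨y0, hy0⟩
  have hgB : ∀ n, g n ∈ B := fun n => htB (hg ▸ mem_range_self n)
  refine ⟨fun n => ⋂ k ∈ Finset.range (n + 1), V (g k), ?_, ?_, ?_, ?_⟩
  · intro n
    exact isOpen_biInter_finset fun k _ => (hVW (g k) (hgB k)).1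
  · intro n
    simp only [mem_iInter]
    intro k _
    exact (hVW (g k) (hgB k)).2.2.1
  · intro m n hmn z hz
    simp only [mem_iInter] at hz ⊢
    intro k hk
    exact hz k (Finset.mem_range.mpr (by have := Finset.mem_range.mp hk; omega))
  · intro b hb
    obtain ⟨y, hy, hby⟩ := htcov b hb
    rw [hg] at hy
    obtain ⟨n, rfl⟩ := hy
    refine ⟨n, fun hcl => ?_⟩
    have hdisj := (hVW (g n) (hgB n)).2.2.2.2
    have hWo := (hVW (g n) (hgB n)).2.1
    have hsub : (⋂ k ∈ Finset.range (n + 1), V (g k)) ⊆ V (g n) := by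
      intro z hz
      simp only [mem_iInter] at hz
      exact hz n (Finset.mem_range.mpr (by omega))
    have h2 : b ∈ closure (V (g n)) := closure_mono hsub hcl
    exact (hdisj.closure_left hWo).le_bot ⟨h2, hby⟩

/-- The node sets of the tree construction. -/
def node {K : Type*} (G : K → ℕ → Set K) (pt : Bool → Set K → K) : List ℕ → Set K
  | [] => univ
  | n :: s => node G pt s ∩ G (pt (s.length % 2 == 0) (node G pt s)) n

lemma resolvable {K : Type*} [TopologicalSpace K] [CompactSpace K] [T2Space K] {A : Set K}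
    (hA : HurSet A) (hB : HurSet Aᶜ) {C : Set K} (hC : C.Nonempty) :
    ∃ V, IsOpen V ∧ (V ∩ C).Nonempty ∧ (V ∩ C ∩ A = ∅ ∨ V ∩ C ∩ Aᶜ = ∅) := by
  classical
  by_contra hcon
  push Not at hcon
  -- choice of points
  have hpt : ∀ (i : Bool) (V : Set K), ∃ x : K, IsOpen V → (V ∩ C).Nonempty →
      x ∈ V ∧ x ∈ C ∧ (i = true → x ∈ A) ∧ (i = false → x ∈ Aᶜ) := by
    intro i V
    by_cases h : IsOpen V ∧ (V ∩ C).Nonempty
    · obtain ⟨h1, h2⟩ := hcon V h.1 h.2
      cases i
      · obtain ⟨x, hx⟩ := h2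
        exact ⟨x, fun _ _ => ⟨hx.1.1, hx.1.2, by simp, fun _ => hx.2⟩⟩
      · obtain ⟨x, hx⟩ := h1
        exact ⟨x, fun _ _ => ⟨hx.1.1, hx.1.2, fun _ => hx.2, by simp⟩⟩
    · obtain ⟨c, _⟩ := hC
      exact ⟨c, fun h1 h2 => absurd ⟨h1, h2⟩ h⟩
  choose pt hpt using hpt
  -- choice of neighbourhoods
  have hG : ∀ x : K, ∃ G : ℕ → Set K, (∀ n, IsOpen (G n)) ∧ (∀ n, x ∈ G n) ∧ Antitone G ∧
      (x ∈ A → ∀ b ∈ Aᶜ, ∃ n, b ∉ closure (G n)) ∧
      (x ∈ Aᶜ → ∀ b ∈ A, ∃ n, b ∉ closure (G n)) := by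
    intro x
    by_cases hx : x ∈ A
    · obtain ⟨G, h1, h2, h3, h4⟩ := hB.separate (x := x) (fun h => h hx)
      exact ⟨G, h1, h2, h3, fun _ => h4, fun h => absurd hx h⟩
    · obtain ⟨G, h1, h2, h3, h4⟩ := hA.separate (x := x) hx
      exact ⟨G, h1, h2, h3, fun h => absurd h hx, fun _ => h4⟩
  choose G hGo hGx hGa hGA hGB using hG
  -- nodes
  have hnode : ∀ s : List ℕ, IsOpen (node G pt s) ∧ (node G pt s ∩ C).Nonempty := by
    intro s
    induction s with
    | nil =>
      refine ⟨isOpen_univ, ?_⟩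
      obtain ⟨c, hc⟩ := hC
      exact ⟨c, mem_univ c, hc⟩
    | cons n s ih =>
      have h := hpt (s.length % 2 == 0) (node G pt s) ih.1 ih.2
      refine ⟨ih.1.inter (hGo _ n), ⟨pt (s.length % 2 == 0) (node G pt s), ⟨h.1, hGx _ n⟩, h.2.1⟩⟩
  set p : List ℕ → K := fun s => pt (s.length % 2 == 0) (node G pt s) with hp
  have hpA : ∀ s : List ℕ, s.length % 2 = 0 → p s ∈ A := by
    intro s hs
    have h := hpt (s.length % 2 == 0) (node G pt s) (hnode s).1 (hnode s).2
    exact h.2.2.1 (by simp [hs])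
  have hpB : ∀ s : List ℕ, s.length % 2 ≠ 0 → p s ∈ Aᶜ := by
    intro s hs
    have h := hpt (s.length % 2 == 0) (node G pt s) (hnode s).1 (hnode s).2
    exact h.2.2.2 (by simp [hs])
  set H : List ℕ → Set K := fun s => ⋂ n, closure (G (p s) n) with hH
  have hHc : ∀ s, IsClosed (H s) := fun s => isClosed_iInter fun n => isClosed_closure
  have hHA : ∀ s : List ℕ, s.length % 2 = 0 → H s ⊆ A := by
    intro s hs z hz
    by_contra hzA
    obtain ⟨n, hn⟩ := hGA (p s) (hpA s hs) z hzA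
    exact hn (mem_iInter.mp hz n)
  have hHB : ∀ s : List ℕ, s.length % 2 ≠ 0 → H s ⊆ Aᶜ := by
    intro s hs z hz hzA
    obtain ⟨n, hn⟩ := hGB (p s) (hpB s hs) z hzA
    exact hn (mem_iInter.mp hz n)
  obtain ⟨F, hFc, hFcov, hFO⟩ := hB.sandwich (ι := List ℕ)
    (fun s => if s.length % 2 = 0 then (H s)ᶜ else univ)
    (by
      intro s
      split_ifs
      · exact (hHc s).isOpen_compl
      · exact isOpen_univ)
    (by
      intro s x hx
      split_ifs with h
      · exact fun hxH => hx (hHA s h hxH)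
      · exact mem_univ x)
  obtain ⟨F', hFc', hFcov', hFO'⟩ := hA.sandwich (ι := List ℕ)
    (fun s => if s.length % 2 = 0 then univ else (H s)ᶜ)
    (by
      intro s
      split_ifs
      · exact isOpen_univ
      · exact (hHc s).isOpen_compl)
    (by
      intro s x hx
      split_ifs with h
      · exact mem_univ x
      · exact fun hxH => hHB s h hxH hx)
  -- extension step
  have hstep : ∀ s : List ℕ, ∃ n : ℕ, closure (G (p s) n) ⊆
      if s.length % 2 = 0 then (F (s.length / 2))ᶜ else (F' (s.length / 2))ᶜ := by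
    intro s
    have hcpt : ∀ U : Set K, IsOpen U → H s ⊆ U → ∃ n, closure (G (p s) n) ⊆ U := by
      intro U hU hHU
      by_contra hno
      push Not at hno
      have hne : ∀ n, (closure (G (p s) n) ∩ Uᶜ).Nonempty := by
        intro n
        obtain ⟨z, hz, hzU⟩ := not_subset.mp (hno n)
        exact ⟨z, hz, hzU⟩
      obtain ⟨z, hz⟩ := IsCompact.nonempty_iInter_of_sequence_nonempty_isCompact_isClosed
        (fun n => closure (G (p s) n) ∩ Uᶜ)
        (fun n => inter_subset_inter_left _ (closure_mono (hGa (p s) (Nat.le_succ n)))) hne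
        (isClosed_closure.inter hU.isClosed_compl).isCompact
        (fun n => isClosed_closure.inter hU.isClosed_compl)
      have hz1 : z ∈ H s := mem_iInter.mpr fun n => (mem_iInter.mp hz n).1
      exact (mem_iInter.mp hz 0).2 (hHU hz1)
    split_ifs with h
    · apply hcpt _ (hFc _).isOpen_compl
      intro z hz hzF
      have := hFO (s.length / 2) s hzF
      simp only [h, if_true] at this
      exact this hz
    · apply hcpt _ (hFc' _).isOpen_compl
      intro z hz hzF
      have := hFO' (s.length / 2) s hzF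
      simp only [h, if_false] at this
      exact this hz
  choose ext hext using hstep
  obtain ⟨b, hb0, hbs⟩ : ∃ b : ℕ → List ℕ, b 0 = [] ∧ ∀ k, b (k + 1) = ext (b k) :: b k :=
    ⟨fun k => Nat.rec [] (fun _ s => ext s :: s) k, rfl, fun _ => rfl⟩
  have hlen : ∀ k, (b k).length = k := by
    intro k
    induction k with
    | zero => rw [hb0]; rfl
    | succ k ih => rw [hbs, List.length_cons, ih]
  have hanti : ∀ k, node G pt (b (k + 1)) ⊆ node G pt (b k) := by
    intro k
    rw [hbs]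
    exact inter_subset_left
  obtain ⟨z, hz⟩ := IsCompact.nonempty_iInter_of_sequence_nonempty_isCompact_isClosed
    (fun k => closure (node G pt (b k))) (fun k => closure_mono (hanti k))
    (fun k => (closure_nonempty_iff.mpr ((hnode (b k)).2.mono inter_subset_left)))
    isClosed_closure.isCompact (fun k => isClosed_closure)
  have hz' : ∀ k, z ∈ closure (G (p (b k)) (ext (b k))) := by
    intro k
    have h1 := mem_iInter.mp hz (k + 1)
    have h2 : node G pt (b (k + 1)) ⊆ G (p (b k)) (ext (b k)) := by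
      rw [hbs]
      exact inter_subset_right
    exact closure_mono h2 h1
  by_cases hzA : z ∈ A
  · obtain ⟨m, hm⟩ := hFcov' z hzA
    have h1 := hext (b (2 * m + 1)) (hz' (2 * m + 1))
    rw [if_neg (by rw [hlen]; omega), hlen, show (2 * m + 1) / 2 = m by omega] at h1
    exact h1 hm
  · obtain ⟨m, hm⟩ := hFcov z hzA
    have h1 := hext (b (2 * m)) (hz' (2 * m))
    rw [if_pos (by rw [hlen]; omega), hlen, show (2 * m) / 2 = m by omega] at h1
    exact h1 hm

lemma sigma_half {K : Type*} [TopologicalSpace K] [CompactSpace K] [T2Space K] {A : Set K}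
    (hA : HurSet A) {E : Set K} (hE : IsClosed E) (hW : IsSigmaCompact (E ∩ Aᶜ)) :
    IsSigmaCompact (E ∩ A) := by
  obtain ⟨D, hDc, hD⟩ := hW
  obtain ⟨F, hFc, hFcov, hFO⟩ := hA.sandwich (ι := ℕ) (fun n => (D n)ᶜ)
    (fun n => (hDc n).isClosed.isOpen_compl)
    (by
      intro n x hx hxD
      have : x ∈ E ∩ Aᶜ := by
        rw [← hD]
        exact mem_iUnion.mpr ⟨n, hxD⟩
      exact this.2 hx)
  have heq : E ∩ A = ⋃ m, (E ∩ F m) := by
    apply Subset.antisymm
    · rintro x ⟨hxE, hxA⟩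
      obtain ⟨m, hm⟩ := hFcov x hxA
      exact mem_iUnion.mpr ⟨m, hxE, hm⟩
    · intro x hx
      obtain ⟨m, hxE, hxF⟩ := mem_iUnion.mp hx
      refine ⟨hxE, ?_⟩
      by_contra hxA
      have : x ∈ ⋃ n, D n := by
        rw [hD]
        exact ⟨hxE, hxA⟩
      obtain ⟨n, hn⟩ := mem_iUnion.mp this
      exact hFO m n hxF hn
  rw [heq]
  exact isSigmaCompact_iUnion_of_isCompact _ fun m => (hE.inter (hFc m)).isCompact

lemma sigma_lindelof {K : Type*} [TopologicalSpace K] [CompactSpace K] [T2Space K] {B : Set K}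
    (hB : HurSet B) {P : Set K → Prop}
    (hP : ∀ W, P W → IsOpen W ∧ IsSigmaCompact (closure W ∩ B)) {E : Set K} (hE : IsClosed E)
    (h : ∀ x ∈ E ∩ B, ∃ W, P W ∧ x ∈ W) : IsSigmaCompact (E ∩ B) := by
  classical
  have hch : ∀ x : K, ∃ W : Set K, x ∈ B → IsOpen W ∧ x ∈ W ∧ (x ∈ E → P W) ∧ (x ∉ E → W = Eᶜ) := by
    intro x
    by_cases hx : x ∈ B
    · by_cases hxE : x ∈ E
      · obtain ⟨W, hW, hxW⟩ := h x ⟨hxE, hx⟩
        exact ⟨W, fun _ => ⟨(hP W hW).1, hxW, fun _ => hW, fun h' => absurd hxE h'⟩⟩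
      · exact ⟨Eᶜ, fun _ => ⟨hE.isOpen_compl, hxE, fun h' => absurd h' hxE, fun _ => rfl⟩⟩
    · exact ⟨∅, fun h' => absurd h' hx⟩
  choose W hW using hch
  obtain ⟨t, htc, htB, htcov⟩ := hB.lindelof W (fun x hx => ⟨(hW x hx).1, (hW x hx).2.1⟩)
  have heq : E ∩ B = ⋃ y ∈ t ∩ E, (E ∩ (closure (W y) ∩ B)) := by
    apply Subset.antisymm
    · rintro x ⟨hxE, hxB⟩
      obtain ⟨y, hy, hxy⟩ := htcov x hxB
      have hyE : y ∈ E := by
        by_contra hyE
        rw [(hW y (htB hy)).2.2.2 hyE] at hxy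
        exact hxy hxE
      exact mem_iUnion₂.mpr ⟨y, ⟨hy, hyE⟩, hxE, subset_closure hxy, hxB⟩
    · intro x hx
      obtain ⟨y, _, hxE, _, hxB⟩ := mem_iUnion₂.mp hx
      exact ⟨hxE, hxB⟩
  rw [heq]
  apply isSigmaCompact_biUnion (htc.mono inter_subset_left)
  rintro y ⟨hyt, hyE⟩
  have h1 := (hP (W y) ((hW y (htB hyt)).2.2.1 hyE)).2
  obtain ⟨D, hDc, hD⟩ := h1
  have : E ∩ (closure (W y) ∩ B) = ⋃ n, E ∩ D n := by
    rw [← hD, inter_iUnion]
  rw [this]
  exact isSigmaCompact_iUnion_of_isCompact _ fun n => (hE.inter (hDc n).isClosed).isCompact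

lemma sigmaCompact_of_hurSet {K : Type*} [TopologicalSpace K] [CompactSpace K] [T2Space K]
    {A : Set K} (hA : HurSet A) (hB : HurSet Aᶜ) : IsSigmaCompact A ∧ IsSigmaCompact Aᶜ := by
  classical
  set P : Set K → Prop := fun W => IsOpen W ∧ IsSigmaCompact (closure W ∩ A) ∧
    IsSigmaCompact (closure W ∩ Aᶜ) with hPdef
  have hall : ∀ x : K, ∃ W, P W ∧ x ∈ W := by
    by_contra hno
    push Not at hno
    obtain ⟨x0, hx0⟩ := hno
    obtain ⟨V, hVo, ⟨x, hxV, hxC⟩, hV⟩ := resolvable hA hB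
      (C := {x | ∀ W, P W → x ∉ W}) ⟨x0, hx0⟩
    obtain ⟨F, hF, hFc, hFV⟩ := exists_mem_nhds_isClosed_subset (hVo.mem_nhds hxV)
    set W := interior F with hW
    have hWF : closure W ⊆ F := closure_minimal interior_subset hFc
    have hxW : x ∈ W := mem_interior_iff_mem_nhds.mpr hF
    refine hxC W ?_ hxW
    have hAc : Aᶜᶜ = A := compl_compl A
    rcases hV with hV | hV
    · -- no point of `A` in `V ∩ C`
      have h1 : IsSigmaCompact (closure W ∩ A) := by
        apply sigma_lindelof hA (P := P) (fun W hW => ⟨hW.1, hW.2.1⟩) isClosed_closure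
        rintro y ⟨hyW, hyA⟩
        by_contra hcon
        push Not at hcon
        have : y ∈ V ∩ {x | ∀ W, P W → x ∉ W} ∩ A := ⟨⟨hFV (hWF hyW), hcon⟩, hyA⟩
        rw [hV] at this
        exact this
      have h2 : IsSigmaCompact (closure W ∩ Aᶜ) := by
        apply sigma_half hB isClosed_closure
        rw [hAc]
        exact h1
      exact ⟨isOpen_interior, h1, h2⟩
    · have h1 : IsSigmaCompact (closure W ∩ Aᶜ) := by
        apply sigma_lindelof hB (P := P) (fun W hW => ⟨hW.1, hW.2.2⟩) isClosed_closure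
        rintro y ⟨hyW, hyA⟩
        by_contra hcon
        push Not at hcon
        have : y ∈ V ∩ {x | ∀ W, P W → x ∉ W} ∩ Aᶜ := ⟨⟨hFV (hWF hyW), hcon⟩, hyA⟩
        rw [hV] at this
        exact this
      have h2 : IsSigmaCompact (closure W ∩ A) := sigma_half hA isClosed_closure h1
      exact ⟨isOpen_interior, h2, h1⟩
  constructor
  · have := sigma_lindelof hA (P := P) (fun W hW => ⟨hW.1, hW.2.1⟩) isClosed_univ
      (fun x _ => hall x)
    rwa [univ_inter] at this
  · have := sigma_lindelof hB (P := P) (fun W hW => ⟨hW.1, hW.2.2⟩) isClosed_univ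
      (fun x _ => hall x)
    rwa [univ_inter] at this

/-- Zero-set style description of a Hurewicz set with Hurewicz complement. -/
lemma exists_functions {K : Type*} [TopologicalSpace K] [CompactSpace K] [T2Space K]
    {A : Set K} (hA : HurSet A) (hB : HurSet Aᶜ) :
    ∃ u : ℕ → ℕ → K → ℝ, (∀ n m, Continuous (u n m)) ∧ (∀ x ∈ A, ∃ n, ∀ m, u n m x = 0) ∧
      (∀ x ∈ Aᶜ, ∃ m, ∀ n, u n m x = 1) := by
  obtain ⟨⟨D, hDc, hD⟩, ⟨E, hEc, hE⟩⟩ := sigmaCompact_of_hurSet hA hB
  have h1 : ∀ n m, ∃ f : C(K, ℝ), EqOn f 0 (D n) ∧ EqOn f 1 (E m) ∧ ∀ x, f x ∈ Icc (0:ℝ) 1 := by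
    intro n m
    apply exists_continuous_zero_one_of_isClosed (hDc n).isClosed (hEc m).isClosed
    rw [Set.disjoint_left]
    intro x hxD hxE
    have h1 : x ∈ A := by rw [← hD]; exact mem_iUnion.mpr ⟨n, hxD⟩
    have h2 : x ∈ Aᶜ := by rw [← hE]; exact mem_iUnion.mpr ⟨m, hxE⟩
    exact h2 h1
  choose u hu0 hu1 _ using h1
  refine ⟨fun n m => u n m, fun n m => (u n m).continuous, ?_, ?_⟩
  · intro x hx
    rw [← hD] at hx
    obtain ⟨n, hn⟩ := mem_iUnion.mp hx
    exact ⟨n, fun m => hu0 n m hn⟩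
  · intro x hx
    rw [← hE] at hx
    obtain ⟨m, hm⟩ := mem_iUnion.mp hx
    exact ⟨m, fun n => hu1 n m hm⟩

lemma exists_clopen_separation {Y : Type*} [TopologicalSpace Y] (hY : IsHurewiczSpace Y)
    (hb : TopologicalSpace.IsTopologicalBasis {s : Set Y | IsClopen s}) {P Q : Set Y} (hP : IsClosed P)
    (hQ : IsClosed Q) (hPQ : Disjoint P Q) :
    ∃ U : Set Y, IsClopen U ∧ P ⊆ U ∧ Disjoint U Q := by
  classical
  rcases isEmpty_or_nonempty Y with hYe | ⟨⟨y00⟩⟩
  · exact ⟨∅, isClopen_empty, fun y _ => (hYe.false y).elim, by simp⟩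
  have hH : HurSet (univ : Set Y) := by
    have := hurSet_image hY isClosed_univ (continuous_id (X := Y))
    rwa [image_id] at this
  have hch : ∀ y : Y, ∃ C : Set Y, IsClopen C ∧ y ∈ C ∧ (Disjoint C P ∨ Disjoint C Q) := by
    intro y
    by_cases hy : y ∈ P
    · have hyQ : y ∈ Qᶜ := fun h => Set.disjoint_left.mp hPQ hy h
      obtain ⟨C, hC, hyC, hCQ⟩ := hb.exists_subset_of_mem_open hyQ hQ.isOpen_compl
      exact ⟨C, hC, hyC, Or.inr (Set.disjoint_left.mpr fun z hz => hCQ hz)⟩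
    · obtain ⟨C, hC, hyC, hCP⟩ := hb.exists_subset_of_mem_open (show y ∈ Pᶜ from hy)
        hP.isOpen_compl
      exact ⟨C, hC, hyC, Or.inl (Set.disjoint_left.mpr fun z hz => hCP hz)⟩
  choose C hC using hch
  obtain ⟨t, htc, _, htcov⟩ := hH.lindelof C (fun y _ => ⟨(hC y).1.isOpen, (hC y).2.1⟩)
  obtain ⟨y0, hy0, _⟩ := htcov y00 (mem_univ _)
  obtain ⟨g, hg⟩ := htc.exists_eq_range ⟨y0, hy0⟩
  have hcov : ∀ y, ∃ n, y ∈ C (g n) := by
    intro y
    obtain ⟨z, hz, hyz⟩ := htcov y (mem_univ _)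
    rw [hg] at hz
    obtain ⟨n, rfl⟩ := hz
    exact ⟨n, hyz⟩
  set D : ℕ → Set Y := fun n => C (g n) ∩ ⋂ i ∈ Finset.range n, (C (g i))ᶜ with hD
  have hDo : ∀ n, IsOpen (D n) := by
    intro n
    exact (hC (g n)).1.isOpen.inter
      (isOpen_biInter_finset fun i _ => (hC (g i)).1.compl.isOpen)
  have hDmem : ∀ y, y ∈ D (Nat.find (hcov y)) := by
    intro y
    refine ⟨Nat.find_spec (hcov y), ?_⟩
    simp only [mem_iInter]
    intro i hi
    exact Nat.find_min (hcov y) (Finset.mem_range.mp hi)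
  have hDuniq : ∀ y n m, y ∈ D n → y ∈ D m → n = m := by
    intro y n m hn hm
    rcases lt_trichotomy n m with h | h | h
    · have := hm.2
      simp only [mem_iInter] at this
      exact absurd hn.1 (this n (Finset.mem_range.mpr h))
    · exact h
    · have := hn.2
      simp only [mem_iInter] at this
      exact absurd hm.1 (this m (Finset.mem_range.mpr h))
  refine ⟨⋃ n ∈ {n | Disjoint (C (g n)) Q}, D n, ?_, ?_, ?_⟩
  · constructor
    · rw [← isOpen_compl_iff]
      have : (⋃ n ∈ {n | Disjoint (C (g n)) Q}, D n)ᶜ = ⋃ n ∈ {n | ¬ Disjoint (C (g n)) Q}, D n := by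
        ext y
        simp only [mem_compl_iff, mem_iUnion, not_exists]
        constructor
        · intro h
          refine ⟨Nat.find (hcov y), ?_, hDmem y⟩
          intro hdis
          exact h _ hdis (hDmem y)
        · rintro ⟨n, hn, hyn⟩ m hm hym
          rw [hDuniq y n m hyn hym] at hn
          exact hn hm
      rw [this]
      exact isOpen_biUnion fun n _ => hDo n
    · exact isOpen_biUnion fun n _ => hDo n
  · intro y hy
    simp only [mem_iUnion]
    refine ⟨Nat.find (hcov y), ?_, hDmem y⟩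
    rcases (hC (g (Nat.find (hcov y)))).2.2 with h | h
    · exact absurd hy (Set.disjoint_left.mp h (Nat.find_spec (hcov y)))
    · exact h
  · rw [Set.disjoint_left]
    intro y hy hyQ
    simp only [mem_iUnion] at hy
    obtain ⟨n, hn, hyn⟩ := hy
    exact Set.disjoint_left.mp hn hyn.1 hyQ

/-- One step of the closing-off argument. -/
lemma step {Y K : Type*} [TopologicalSpace Y] [TopologicalSpace K] [CompactSpace K] [T2Space K]
    {f : Y → K} (hf : Continuous f) (hbij : Function.Bijective f) (hY : IsHurewiczSpace Y)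
    (hb : TopologicalSpace.IsTopologicalBasis {s : Set Y | IsClopen s}) (g : C(K, ℝ)) (p q : ℚ) :
    ∃ (U : Set Y) (u : ℕ → ℕ → C(K, ℝ)), IsClopen U ∧
      (p < q → (∀ y, g (f y) ≤ p → y ∈ U) ∧ (∀ y, (q : ℝ) ≤ g (f y) → y ∉ U)) ∧
      (∀ y ∈ U, ∃ n, ∀ m, u n m (f y) = 0) ∧ (∀ y ∉ U, ∃ m, ∀ n, u n m (f y) = 1) := by
  classical
  have h1 : ∃ U : Set Y, IsClopen U ∧
      (p < q → (∀ y, g (f y) ≤ p → y ∈ U) ∧ (∀ y, (q : ℝ) ≤ g (f y) → y ∉ U)) := by
    by_cases hpq : p < q
    · have hpq' : (p : ℝ) < q := by exact_mod_cast hpq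
      obtain ⟨U, hU, hPU, hUQ⟩ := exists_clopen_separation hY hb
        (P := {y | g (f y) ≤ p}) (Q := {y | (q : ℝ) ≤ g (f y)})
        (isClosed_le (g.continuous.comp hf) continuous_const)
        (isClosed_le continuous_const (g.continuous.comp hf))
        (Set.disjoint_left.mpr fun y (hy : g (f y) ≤ p) (hy' : (q : ℝ) ≤ g (f y)) => by
          linarith)
      exact ⟨U, hU, fun _ => ⟨fun y hy => hPU hy, fun y hy hyU => Set.disjoint_left.mp hUQ hyU hy⟩⟩
    · exact ⟨∅, isClopen_empty, fun h => absurd h hpq⟩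
  obtain ⟨U, hU, hsep⟩ := h1
  have hA : HurSet (f '' U) := hurSet_image hY hU.isClosed hf
  have hB : HurSet (f '' U)ᶜ := by
    rw [← image_compl_eq hbij]
    exact hurSet_image hY hU.compl.isClosed hf
  obtain ⟨u, huc, hu0, hu1⟩ := exists_functions hA hB
  refine ⟨U, fun n m => ⟨u n m, huc n m⟩, hU, hsep, ?_, ?_⟩
  · intro y hy
    exact hu0 (f y) (mem_image_of_mem f hy)
  · intro y hy
    refine hu1 (f y) ?_
    rintro ⟨y', hy', he⟩
    exact hy (hbij.1 he ▸ hy')

/-- The countable family of functions produced by the closing-off argument. -/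
noncomputable def fam {K : Type*} [TopologicalSpace K] (f0 : C(K, ℝ))
    (uu : C(K, ℝ) → ℚ → ℚ → ℕ → ℕ → C(K, ℝ)) : List (ℚ × ℚ × ℕ × ℕ) → C(K, ℝ)
  | [] => f0
  | a :: l => uu (fam f0 uu l) a.1 a.2.1 a.2.2.1 a.2.2.2

theorem core {Y K : Type*} [TopologicalSpace Y] [TopologicalSpace K] [CompactSpace K] [T2Space K]
    [PreconnectedSpace K] [Nontrivial K] {f : Y → K} (hf : Continuous f)
    (hbij : Function.Bijective f) (hb : TopologicalSpace.IsTopologicalBasis {s : Set Y | IsClopen s}) :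
    ¬ IsHurewiczSpace Y := by
  classical
  intro hY
  obtain ⟨p0, q0, hpq0⟩ := exists_pair_ne K
  obtain ⟨f0, hf0p, hf0q, _⟩ := exists_continuous_zero_one_of_isClosed
    (isClosed_singleton (x := p0)) (isClosed_singleton (x := q0))
    (Set.disjoint_singleton.mpr hpq0)
  have hf0 : f0 p0 ≠ f0 q0 := by
    rw [hf0p (mem_singleton p0), hf0q (mem_singleton q0)]
    simp
  have hst := step hf hbij hY hb
  choose UU uu hUc hUsep hU0 hU1 using hst
  set Fam := fam f0 uu with hFam
  have hFam_nil : Fam [] = f0 := rfl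
  have hFam_cons : ∀ p q n m l, Fam ((p, q, n, m) :: l) = uu (Fam l) p q n m :=
    fun p q n m l => rfl
  let ι := List (ℚ × ℚ × ℕ × ℕ)
  let J := ι × ℚ × ℚ
  let V : J → Set Y := fun j => UU (Fam j.1) j.2.1 j.2.2
  have hVc : ∀ j, IsClopen (V j) := fun j => hUc _ _ _
  let Z := (ι → ℝ) × (J → Bool)
  let φ : K → (ι → ℝ) := fun x l => Fam l x
  have hφ : Continuous φ := continuous_pi fun l => (Fam l).continuous
  let Φ : Y → Z := fun y => (φ (f y), fun j => decide (y ∈ V j))
  have hΦ : Continuous Φ := by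
    refine (hφ.comp hf).prodMk (continuous_pi fun j => ?_)
    rw [continuous_bool_rng true]
    have : (fun y => decide (y ∈ V j)) ⁻¹' {true} = V j := by
      ext y
      simp
    rw [this]
    exact hVc j
  have hA : HurSet (range Φ) := by
    rw [← image_univ]
    exact hurSet_image hY isClosed_univ hΦ
  -- the G_delta conditions
  let idx : J → ℕ → ℕ → ι := fun j n m => (j.2.1, j.2.2, n, m) :: j.1
  let O : J × ℕ × Bool → Set Z := fun i =>
    if i.2.2 then {z | z.2 i.1 = false ∨ ∃ n, z.1 (idx i.1 n i.2.1) ≠ 1}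
    else {z | z.2 i.1 = true ∨ ∃ m, z.1 (idx i.1 i.2.1 m) ≠ 0}
  have hO : ∀ i, IsOpen (O i) := by
    rintro ⟨j, k, b⟩
    have h2' : Continuous fun z : Z => z.2 j := (continuous_apply j).comp continuous_snd
    have h2 : ∀ c : Bool, IsOpen {z : Z | z.2 j = c} := fun c =>
      (isOpen_discrete ({c} : Set Bool)).preimage h2'
    have h3 : ∀ (l : ι) (r : ℝ), IsOpen {z : Z | z.1 l ≠ r} := fun l r => by
      have h4 : Continuous fun z : Z => z.1 l := (continuous_apply l).comp continuous_fst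
      exact isOpen_ne.preimage h4
    cases b
    · have : O (j, k, false) = {z | z.2 j = true} ∪ ⋃ m, {z | z.1 (idx j k m) ≠ 0} := by
        ext z
        simp [O]
      rw [this]
      exact (h2 true).union (isOpen_iUnion fun m => h3 _ _)
    · have : O (j, k, true) = {z | z.2 j = false} ∪ ⋃ n, {z | z.1 (idx j n k) ≠ 1} := by
        ext z
        simp [O]
      rw [this]
      exact (h2 false).union (isOpen_iUnion fun m => h3 _ _)
  have hAO : ∀ i, range Φ ⊆ O i := by
    rintro ⟨j, k, b⟩ _ ⟨y, rfl⟩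
    by_cases hy : y ∈ V j
    · obtain ⟨n, hn⟩ := hU0 _ _ _ y hy
      cases b
      · simp [O, Φ, hy]
      · have : φ (f y) (idx j n k) ≠ 1 := by
          simp only [φ, idx]
          rw [hFam_cons, hn k]
          simp
        simp only [O, if_true]
        exact Or.inr ⟨n, this⟩
    · obtain ⟨m, hm⟩ := hU1 _ _ _ y hy
      cases b
      · have : φ (f y) (idx j k m) ≠ 0 := by
          simp only [φ, idx]
          rw [hFam_cons, hm k]
          simp
        simp only [O, Bool.false_eq_true, if_false]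
        exact Or.inr ⟨m, this⟩
      · simp [O, Φ, hy]
  obtain ⟨F, hFc, hFcov, hFO⟩ := hA.sandwich O hO hAO
  -- key claim
  have hkey : ∀ m y (w : J → Bool), ((φ (f y), w) : Z) ∈ F m → ∀ j, w j = true ↔ y ∈ V j := by
    intro m y w hw j
    constructor
    · intro hwj
      by_contra hy
      obtain ⟨k, hk⟩ := hU1 _ _ _ y hy
      have h1 := hFO m (j, k, true) hw
      simp only [O, if_true] at h1
      rcases h1 with h1 | ⟨n, hn⟩
      · change w j = false at h1
        rw [h1] at hwj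
        exact absurd hwj (by simp)
      · apply hn
        simp only [φ, idx]
        rw [hFam_cons, hk n]
    · intro hy
      by_contra hwj
      obtain ⟨n, hn⟩ := hU0 _ _ _ y hy
      have h1 := hFO m (j, n, false) hw
      simp only [O, Bool.false_eq_true, if_false] at h1
      rcases h1 with h1 | ⟨k, hk⟩
      · exact hwj h1
      · apply hk
        simp only [φ, idx]
        rw [hFam_cons, hn k]
  -- the compact space M
  let M := range φ
  have hMc : IsCompact M := isCompact_range hφ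
  have : CompactSpace M := isCompact_iff_compactSpace.mp hMc
  have : Nonempty M := ⟨⟨φ p0, mem_range_self p0⟩⟩
  let ψ : K → M := fun x => ⟨φ x, mem_range_self x⟩
  have hψ : Continuous ψ := hφ.subtype_mk _
  have hproj : ∀ Q : Set Z, IsClosed Q → IsClosed {z : M | ∃ w, ((z.1, w) : Z) ∈ Q} := by
    intro Q hQ
    have h1 : IsClosed {z : M × (J → Bool) | ((z.1.1, z.2) : Z) ∈ Q} :=
      hQ.preimage ((continuous_subtype_val.comp continuous_fst).prodMk continuous_snd)
    have h2 := isClosedMap_fst_of_compactSpace _ h1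
    convert h2 using 1
    ext z
    simp
  obtain ⟨m, z0, hz0⟩ := nonempty_interior_of_iUnion_of_closed
    (f := fun m => {z : M | ∃ w, ((z.1, w) : Z) ∈ F m}) (fun m => hproj _ (hFc m)) (by
      apply eq_univ_of_forall
      rintro ⟨_, x, rfl⟩
      obtain ⟨y, rfl⟩ := hbij.2 x
      obtain ⟨m, hm⟩ := hFcov (Φ y) (mem_range_self y)
      exact mem_iUnion.mpr ⟨m, (Φ y).2, hm⟩)
  -- another point
  obtain ⟨z1, hz1⟩ : ∃ z1 : M, z1 ≠ z0 := by
    by_contra hno
    push Not at hno
    have h1 := (hno (ψ p0)).trans (hno (ψ q0)).symm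
    have h2 : φ p0 = φ q0 := congrArg Subtype.val h1
    have h3 := congrFun h2 []
    simp only [φ] at h3
    rw [hFam_nil] at h3
    exact hf0 h3
  set W : Set M := interior {z : M | ∃ w, ((z.1, w) : Z) ∈ F m} \ {z1} with hW
  have hWo : IsOpen W := isOpen_interior.sdiff isClosed_singleton
  have hz0W : z0 ∈ W := ⟨hz0, fun h => hz1 h.symm⟩
  obtain ⟨W', hW'o, hW'⟩ := isOpen_induced_iff.mp hWo
  have hz0W' : z0.1 ∈ W' := by
    have : z0 ∈ Subtype.val ⁻¹' W' := by rw [hW']; exact hz0W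
    exact this
  obtain ⟨I, u, hu, huW⟩ := isOpen_pi_iff.mp hW'o z0.1 hz0W'
  -- rationals
  have hrat : ∀ a : ι, ∃ p q p' q' : ℚ, a ∈ I → p < q ∧ p' < q' ∧ (q : ℝ) ≤ z0.1 a ∧
      z0.1 a ≤ p' ∧ Ioo (p : ℝ) q' ⊆ u a := by
    intro a
    by_cases ha : a ∈ I
    · obtain ⟨ε, hε, hball⟩ := Metric.isOpen_iff.mp (hu a ha).1 _ (hu a ha).2
      obtain ⟨q, hq1, hq2⟩ := exists_rat_btwn (show z0.1 a - ε < z0.1 a by linarith)
      obtain ⟨p, hp1, hp2⟩ := exists_rat_btwn hq1
      obtain ⟨p', hp'1, hp'2⟩ := exists_rat_btwn (show z0.1 a < z0.1 a + ε by linarith)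
      obtain ⟨q', hq'1, hq'2⟩ := exists_rat_btwn hp'2
      refine ⟨p, q, p', q', fun _ => ⟨by exact_mod_cast hp2, by exact_mod_cast hq'1, hq2.le,
        hp'1.le, ?_⟩⟩
      intro r hr
      apply hball
      rw [Real.ball_eq_Ioo]
      exact ⟨by linarith [hr.1], by linarith [hr.2]⟩
    · exact ⟨0, 0, 0, 0, fun h => absurd h ha⟩
  choose rp rq rp' rq' hr using hrat
  let cond : (J → Bool) → Prop := fun w => ∀ a ∈ I, w (a, rp a, rq a) = false ∧
    w (a, rp' a, rq' a) = true
  have hcond : IsClopen {z : Z | cond z.2} := by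
    have h1 : {z : Z | cond z.2} = ⋂ a ∈ I, ({z : Z | z.2 (a, rp a, rq a) = false} ∩
        {z : Z | z.2 (a, rp' a, rq' a) = true}) := by
      ext z
      simp [cond]
    rw [h1]
    have h2 : ∀ (j : J) (c : Bool), IsClopen {z : Z | z.2 j = c} := fun j c => by
      have h2' : Continuous fun z : Z => z.2 j := (continuous_apply j).comp continuous_snd
      exact (isClopen_discrete ({c} : Set Bool)).preimage h2'
    exact isClopen_biInter_finset fun a _ => (h2 _ _).inter (h2 _ _)
  let P : Set Y := {y | cond (Φ y).2}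
  have hPW : ∀ y ∈ P, ψ (f y) ∈ W := by
    intro y hy
    have h1 : φ (f y) ∈ W' := by
      apply huW
      intro a ha
      have ha' : a ∈ I := ha
      have h2 := hy a ha'
      obtain ⟨h3, h4, h5, h6, h7⟩ := hr a ha'
      simp only [Φ, decide_eq_false_iff_not, decide_eq_true_eq] at h2
      apply h7
      constructor
      · by_contra hle
        push Not at hle
        exact h2.1 ((hUsep (Fam a) (rp a) (rq a) h3).1 y hle)
      · by_contra hle
        push Not at hle
        exact (hUsep (Fam a) (rp' a) (rq' a) h4).2 y hle h2.2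
    have h2 : ψ (f y) ∈ Subtype.val ⁻¹' W' := h1
    rw [hW'] at h2
    exact h2
  have hPE : ∀ y, ψ (f y) ∈ W → Φ y ∈ F m := by
    intro y hy
    obtain ⟨w, hw⟩ := interior_subset hy.1
    have h1 : w = (Φ y).2 := by
      funext j
      have := hkey m y w hw j
      by_cases hyj : y ∈ V j
      · rw [this.mpr hyj]
        simp [Φ, hyj]
      · have h2 : w j ≠ true := fun h => hyj (this.mp h)
        simp only [ne_eq, Bool.not_eq_true] at h2
        rw [h2]
        simp [Φ, hyj]
    rw [h1] at hw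
    exact hw
  have hPuniq : ∀ y w, ((φ (f y), w) : Z) ∈ F m → w = (Φ y).2 := by
    intro y w hw
    funext j
    have := hkey m y w hw j
    by_cases hyj : y ∈ V j
    · rw [this.mpr hyj]
      simp [Φ, hyj]
    · have h2 : w j ≠ true := fun h => hyj (this.mp h)
      simp only [ne_eq, Bool.not_eq_true] at h2
      rw [h2]
      simp [Φ, hyj]
  have hclosed : IsClosed (f '' P) := by
    have h1 : f '' P = ψ ⁻¹' {z : M | ∃ w, ((z.1, w) : Z) ∈ F m ∩ {z : Z | cond z.2}} := by
      ext x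
      obtain ⟨y, rfl⟩ := hbij.2 x
      constructor
      · rintro ⟨y', hy', he⟩
        obtain rfl := hbij.1 he
        exact ⟨(Φ y').2, hPE y' (hPW y' hy'), hy'⟩
      · rintro ⟨w, hwF, hwc⟩
        have := hPuniq y w hwF
        refine ⟨y, ?_, rfl⟩
        show cond (Φ y).2
        rw [← this]
        exact hwc
    rw [h1]
    exact (hproj _ ((hFc m).inter hcond.isClosed)).preimage hψ
  have hopen : IsOpen (f '' P) := by
    have h1 : f '' P = ψ ⁻¹' (W \ {z : M | ∃ w, ((z.1, w) : Z) ∈ F m ∩ {z : Z | cond z.2}ᶜ}) := by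
      ext x
      obtain ⟨y, rfl⟩ := hbij.2 x
      constructor
      · rintro ⟨y', hy', he⟩
        obtain rfl := hbij.1 he
        refine ⟨hPW y' hy', ?_⟩
        rintro ⟨w, hwF, hwc⟩
        have := hPuniq y' w hwF
        apply hwc
        show cond w
        rw [this]
        exact hy'
      · rintro ⟨hyW, hyR⟩
        refine ⟨y, ?_, rfl⟩
        by_contra hyP
        exact hyR ⟨(Φ y).2, hPE y hyW, hyP⟩
    rw [h1]
    exact (hWo.sdiff (hproj _ ((hFc m).inter hcond.compl.isClosed))).preimage hψ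
  obtain ⟨x0, hx0⟩ := z0.2
  obtain ⟨y0, rfl⟩ := hbij.2 x0
  have hy0P : y0 ∈ P := by
    intro a ha
    obtain ⟨h3, h4, h5, h6, h7⟩ := hr a ha
    have h8 : z0.1 a = Fam a (f y0) := by rw [← hx0]
    rw [h8] at h5 h6
    have h9 := (hUsep (Fam a) (rp a) (rq a) h3).2 y0 h5
    have h10 := (hUsep (Fam a) (rp' a) (rq' a) h4).1 y0 h6
    constructor
    · exact decide_eq_false h9
    · exact decide_eq_true h10
  have huniv := IsClopen.eq_univ ⟨hclosed, hopen⟩ ⟨f y0, mem_image_of_mem f hy0P⟩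
  obtain ⟨x1, hx1⟩ := z1.2
  have h1 : x1 ∈ f '' P := by rw [huniv]; exact mem_univ x1
  obtain ⟨y1, hy1, rfl⟩ := h1
  have h2 := hPW y1 hy1
  apply h2.2
  exact Subtype.ext hx1

lemma IsHurewiczSpace.of_isClosed {Y : Type*} [TopologicalSpace Y] (hY : IsHurewiczSpace Y)
    {A : Set Y} (hA : IsClosed A) : IsHurewiczSpace A := by
  classical
  intro 𝒰 h𝒰
  obtain ⟨𝒱, hV, hcov⟩ := hY
    (fun n => {V | IsOpen V ∧ (Subtype.val ⁻¹' V : Set A) ∈ 𝒰 n} ∪ {Aᶜ}) (by
      intro n
      constructor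
      · rintro U (hU | rfl)
        · exact hU.1
        · exact hA.isOpen_compl
      · apply eq_univ_of_forall
        intro x
        by_cases hx : x ∈ A
        · have : (⟨x, hx⟩ : A) ∈ ⋃₀ 𝒰 n := by rw [(h𝒰 n).2]; exact mem_univ _
          obtain ⟨U, hU, hxU⟩ := this
          obtain ⟨V, hVo, rfl⟩ := isOpen_induced_iff.mp ((h𝒰 n).1 U hU)
          exact ⟨V, Or.inl ⟨hVo, hU⟩, hxU⟩
        · exact ⟨Aᶜ, Or.inr rfl, hx⟩)
  refine ⟨fun n => (fun V => (Subtype.val ⁻¹' V : Set A)) '' (𝒱 n \ {Aᶜ}), ?_, ?_⟩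
  · intro n
    constructor
    · rintro _ ⟨V, ⟨hVn, hne⟩, rfl⟩
      rcases (hV n).1 hVn with h | h
      · exact h.2
      · exact absurd h hne
    · exact ((hV n).2.subset sdiff_subset).image _
  · intro x
    filter_upwards [hcov x.1] with n hn
    obtain ⟨V, hVn, hxV⟩ := hn
    refine ⟨Subtype.val ⁻¹' V, ⟨V, ⟨hVn, ?_⟩, rfl⟩, hxV⟩
    rintro (rfl : V = Aᶜ)
    exact hxV x.2

theorem main_aux {Y K : Type*} [TopologicalSpace Y] [TopologicalSpace K] [CompactSpace K]
    [T2Space K] {f : Y → K} (hf : Continuous f) (hbij : Function.Bijective f)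
    (hb : TopologicalSpace.IsTopologicalBasis {s : Set Y | IsClopen s})
    (hK : ¬ TopologicalSpace.IsTopologicalBasis {s : Set K | IsClopen s}) :
    ¬ IsHurewiczSpace Y := by
  intro hY
  have h1 : ¬ TotallyDisconnectedSpace K := fun _ => hK isTopologicalBasis_isClopen
  have h2 : ∃ x y : K, y ∈ connectedComponent x ∧ y ≠ x := by
    by_contra hno
    push Not at hno
    apply h1
    rw [totallyDisconnectedSpace_iff_connectedComponent_singleton]
    intro x
    exact Subset.antisymm (fun y hy => hno x y hy)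
      (singleton_subset_iff.mpr mem_connectedComponent)
  obtain ⟨x, y, hy, hyx⟩ := h2
  have hCc : IsClosed (connectedComponent x) := isClosed_connectedComponent
  have : CompactSpace (connectedComponent x) := isCompact_iff_compactSpace.mp hCc.isCompact
  have : PreconnectedSpace (connectedComponent x) :=
    isPreconnected_iff_preconnectedSpace.mp isPreconnected_connectedComponent
  have : Nontrivial (connectedComponent x) :=
    ⟨⟨⟨x, mem_connectedComponent⟩, ⟨y, hy⟩, fun h => hyx (congrArg Subtype.val h).symm⟩⟩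
  let g : (f ⁻¹' (connectedComponent x)) → (connectedComponent x) := fun z => ⟨f z.1, z.2⟩
  have hg : Continuous g := (hf.comp continuous_subtype_val).subtype_mk _
  have hgb : Function.Bijective g := by
    constructor
    · intro a b hab
      exact Subtype.ext (hbij.1 (congrArg Subtype.val hab))
    · rintro ⟨z, hz⟩
      obtain ⟨w, rfl⟩ := hbij.2 z
      exact ⟨⟨w, hz⟩, rfl⟩
  refine core hg hgb ?_ (hY.of_isClosed (hCc.preimage hf))
  apply TopologicalSpace.isTopologicalBasis_of_isOpen_of_nhds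
  · intro U hU
    exact hU.isOpen
  · intro a U haU hU
    obtain ⟨V, hVo, rfl⟩ := isOpen_induced_iff.mp hU
    obtain ⟨W, hW, haW, hWV⟩ := hb.exists_subset_of_mem_open haU hVo
    exact ⟨Subtype.val ⁻¹' W, IsClopen.preimage hW continuous_subtype_val, haW,
      preimage_mono hWV⟩

/-- **Main result.**  Let `T₂ ⊆ T₁` be topologies on `X` such that `(X, T₂)` is compact Hausdorff,
`ind (X, T₁) = 0` and `ind (X, T₂) > 0`.  Then `(X, T₁)` is not a Hurewicz space. -/
theorem result {X : Type*} (T₁ T₂ : TopologicalSpace X)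
    (hT : ∀ U : Set X, IsOpen[T₂] U → IsOpen[T₁] U)
    (hcomp : @CompactSpace X T₂) (hT2 : @T2Space X T₂)
    (hind₁ : @smallInductiveDimension X T₁ = 0)
    (hind₂ : 0 < @smallInductiveDimension X T₂) :
    ¬ @IsHurewiczSpace X T₁ := by
  have h1 : @HasSmallInductiveDimensionLT X T₁ 1 := by
    have := (@smallInductiveDimension_le_iff X T₁ 0).mp (by rw [hind₁]; simp)
    exact this
  have hb := (@hasSmallInductiveDimensionLT_one_iff X T₁).mp h1
  have h2 : ¬ @HasSmallInductiveDimensionLT X T₂ 1 := by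
    intro h
    have h3 := (@smallInductiveDimension_le_iff X T₂ 0).mpr h
    have h4 : @smallInductiveDimension X T₂ ≤ 0 := by simpa using h3
    exact absurd hind₂ (not_lt.mpr h4)
  have hK := fun h => h2 ((@hasSmallInductiveDimensionLT_one_iff X T₂).mpr h)
  have hid : @Continuous X X T₁ T₂ id := continuous_id_iff_le.mpr hT
  exact @main_aux X X T₁ T₂ hcomp hT2 id hid Function.bijective_id hb hK

end Pool.Agent.Results.MP_8652de_gt.Refinement
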